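import Pool.Agent.Helper75.OE.GoalsB

/-!
# Project OE (MP_fc0446_an), packet CVX
-/

namespace Pool.Agent.Helper85.OE

open Pool.Agent.Helper73.OE Pool.Agent.Helper73.OE.Sys Pool.Agent.Helper75.OE

theorem cvx (hmed : B_MED) : B_CVX := by
  intro H S L _ X
  obtain ⟨htri, -, -, hm⟩ := hmed H S L X
  refine ⟨?_, ?_, ?_, ?_, ?_, ?_⟩
  · intro v r a ha b hb z hz
    rw [X.mem_ball] at ha hb ⊢
    rcases hm a z b v hz with h | h
    · rw [X.dist_comm z v, X.dist_comm a v] at h
      omega
    · omega
  · intro K1 K2 c h1 h2 hc1 hc2 a ha b hb z hz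
    rcases ha with ha | ha <;> rcases hb with hb | hb
    · exact Or.inl (h1 a ha b hb z hz)
    · rcases hm a z b c hz with h | h
      · exact Or.inl (h1 a ha c hc1 z h)
      · exact Or.inr (h2 c hc2 b hb z h)
    · rcases hm a z b c hz with h | h
      · exact Or.inr (h2 a ha c hc2 z h)
      · exact Or.inl (h1 c hc1 b hb z h)
    · exact Or.inr (h2 a ha b hb z hz)
  · intro v s a ha b hb z hz
    have hd : X.dist a b ≤ 1 := by
      rcases ha with rfl | ha <;> rcases hb with rfl | hb
      · rw [X.dist_self]; omega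
      · rw [Set.mem_singleton_iff.1 hb, X.dist_nb_self]
      · rw [Set.mem_singleton_iff.1 ha, X.dist_comm, X.dist_nb_self]
      · rw [Set.mem_singleton_iff.1 ha, Set.mem_singleton_iff.1 hb, X.dist_self]; omega
    rcases Nat.eq_zero_or_pos (X.dist a z) with h | h
    · rw [(X.dist_eq_zero a z).1 h] at ha
      exact ha
    · have h2 : X.dist z b = 0 := by omega
      rw [(X.dist_eq_zero z b).1 h2]
      exact hb
  · intro U o ho
    have hoo : o ∈ Cmp X U o := by
      intro x hx
      rw [X.dist_self] at hx
      have h : X.dist o x = 0 := by omega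
      rw [← (X.dist_eq_zero o x).1 h]
      exact ho
    refine ⟨hoo, hoo, ?_⟩
    intro z hz s hs x hx
    apply hz x
    have h1 := X.dist_le_nb x z s
    have h2 := htri o x z
    omega
  · intro U o z hz
    apply hz z
    rw [X.dist_self, add_zero]
  · intro U K o c hK hKU hc hco z hz x hx
    rcases hm o x z c hx with h | h
    · exact hco x h
    · exact hKU (hK c hc z hz x h)

end Pool.Agent.Helper85.OE
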