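import Pool.Agent.Helper75.OE.GoalsB2

/-!
# Project OE (MP_fc0446_an), packet WLOW
-/

namespace Pool.Agent.Helper85.OE

open Pool.Agent.Helper73.OE Pool.Agent.Helper73.OE.Sys Pool.Agent.Helper75.OE Finset
open scoped ENNReal

theorem wlow : B_WLOW := by
  classical
  intro H S L _ _ X P t ζ κ O Sb q o C Sp k hζ hκ hC
  obtain ⟨E, hEc, hE⟩ := hC.edges
  have h1 : ∏ z ∈ C, wz X t ζ κ Sb o C Sp z = t ^ C.card * (ζ ^ Sp.card *
      ∏ z ∈ Sp, ∏ c : S,
        (if X.nb z c ∈ C ∧ X.dist o (X.nb z c) = X.dist o z + 1 ∧ Sb z c then κ else 1)) := by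
    unfold wz
    rw [Finset.prod_mul_distrib, Finset.prod_const, Finset.prod_ite, Finset.prod_const_one,
      mul_one, Finset.prod_mul_distrib, Finset.prod_const]
    have h2 : C.filter (fun z => z ∈ Sp) = Sp := by
      ext z
      simp only [Finset.mem_filter]
      exact ⟨fun h => h.2, fun h => ⟨hC.sub h, h⟩⟩
    rw [h2]
  rw [h1, mul_pow, ← pow_mul]
  refine mul_le_mul_right (mul_le_mul' (pow_le_pow_right_of_le_one' hζ hC.card) ?_) _
  rw [← Finset.prod_product', ← hEc, ← Finset.prod_const]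
  have h3 : E ⊆ Sp ×ˢ (univ : Finset S) := by
    intro e he
    rw [Finset.mem_product]
    exact ⟨(hE e he).1, Finset.mem_univ _⟩
  calc ∏ _e ∈ E, κ = ∏ e ∈ E, (if X.nb e.1 e.2 ∈ C ∧
        X.dist o (X.nb e.1 e.2) = X.dist o e.1 + 1 ∧ Sb e.1 e.2 then κ else 1) := by
        refine Finset.prod_congr rfl fun e he => ?_
        rw [if_pos (hE e he).2]
    _ ≤ _ := by
        refine Finset.prod_le_prod_of_subset_of_one_le' h3 fun e _ _ => ?_
        split_ifs
        · exact hκ
        · exact le_rfl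

end Pool.Agent.Helper85.OE
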